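import Pool.Agent.Helper91.Section.Basic

/-!
# The image of a Galois section under a dominant map
-/

universe u

namespace Pool.Agent.TW

open IntermediateField Pool.Agent.Helper91.Sect

section normal

variable {k K : Type u} [Field k] [Field K] [Algebra k K]

/-- The maximal unramified extension is stable under automorphisms. -/
theorem map_mem_Kur {z : AlgebraicClosure K} (hz : z ∈ Kur k K)
    (σ : AlgebraicClosure K ≃ₐ[K] AlgebraicClosure K) : σ z ∈ Kur k K := by
  intro W hW τ hτ
  have h1 : σ.symm (τ (σ z)) = z := by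
    refine hz (W.comap (σ : AlgebraicClosure K →+* AlgebraicClosure K)) ?_
      (((σ.trans τ).trans σ.symm)) ⟨?_, ?_⟩
    · intro c
      rw [ValuationSubring.mem_comap]
      have h2 : (σ : AlgebraicClosure K →+* AlgebraicClosure K)
          (algebraMap k (AlgebraicClosure K) c) = algebraMap k (AlgebraicClosure K) c := by
        rw [IsScalarTower.algebraMap_apply k K (AlgebraicClosure K)]
        exact σ.commutes _
      rw [h2]
      exact hW c
    · intro w
      rw [ValuationSubring.mem_comap, ValuationSubring.mem_comap]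
      change σ (σ.symm (τ (σ w))) ∈ W ↔ σ w ∈ W
      rw [AlgEquiv.apply_symm_apply]
      exact hτ.1 _
    · intro w hw
      rw [ValuationSubring.mem_comap] at hw
      rw [← ValuationSubring.mem_nonunits_iff, ValuationSubring.mem_nonunits_iff_or,
        ValuationSubring.mem_comap, map_inv₀]
      have h2 : (σ : AlgebraicClosure K →+* AlgebraicClosure K)
          ((σ.trans τ).trans σ.symm w - w) = τ (σ w) - σ w := by
        rw [map_sub]
        change σ (σ.symm (τ (σ w))) - σ w = _
        rw [AlgEquiv.apply_symm_apply]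
      rw [h2]
      have h3 := hτ.2 _ hw
      rw [← ValuationSubring.mem_nonunits_iff, ValuationSubring.mem_nonunits_iff_or] at h3
      rcases h3 with h3 | h3
      · left
        have h4 : (σ : AlgebraicClosure K →+* AlgebraicClosure K)
            ((σ.trans τ).trans σ.symm w - w) = 0 := h2.trans h3
        exact (map_eq_zero (σ : AlgebraicClosure K →+* AlgebraicClosure K)).1 h4
      · exact Or.inr h3
  have h2 := congrArg σ h1
  rwa [AlgEquiv.apply_symm_apply] at h2

theorem normal_Kur : Normal K (Kur k K) := by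
  rw [normal_iff_forall_map_le']
  rintro σ _ ⟨z, hz, rfl⟩
  exact map_mem_Kur hz σ

end normal

/-- **The image of a Galois section.** -/
theorem push {k K₁ K : Type u} [Field k] [Field K₁] [Field K] [Algebra k K₁] [Algebra k K]
    [Algebra K₁ K] [IsScalarTower k K₁ K] (s : GaloisSection k K) :
    Nonempty (GaloisSection k K₁) := by
  classical
  let Ω₁ := AlgebraicClosure K₁
  let Ω := AlgebraicClosure K
  let φ : Ω₁ →ₐ[K₁] Ω := IsAlgClosed.lift
  let _ : Algebra Ω₁ Ω := φ.toRingHom.toAlgebra
  have hst1 : IsScalarTower K₁ Ω₁ Ω := IsScalarTower.of_algebraMap_eq fun z => (φ.commutes z).symm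
  have hk : ∀ c : k, φ (algebraMap k Ω₁ c) = algebraMap k Ω c := by
    intro c
    rw [IsScalarTower.algebraMap_apply k K₁ Ω₁, φ.commutes, ← IsScalarTower.algebraMap_apply]
  have hnor : Normal K₁ Ω₁ := IsAlgClosure.normal K₁ Ω₁
  -- automorphisms
  have hres : ∀ σ : Ω ≃ₐ[K] Ω, ∃ σ₁ : Ω₁ ≃ₐ[K₁] Ω₁, ∀ z, φ (σ₁ z) = σ (φ z) := by
    intro σ
    refine ⟨(σ.restrictScalars K₁).restrictNormal Ω₁, fun z => ?_⟩
    exact (σ.restrictScalars K₁).restrictNormal_commutes Ω₁ z
  -- the maximal unramified extensions
  have hKur : ∀ z ∈ Kur k K₁, φ z ∈ Kur k K := by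
    intro z hz W hW σ hσ
    obtain ⟨σ₁, hσ₁⟩ := hres σ
    rw [← hσ₁]
    congr 1
    refine hz (W.comap (φ : Ω₁ →+* Ω)) ?_ σ₁ ⟨?_, ?_⟩
    · intro c
      rw [ValuationSubring.mem_comap]
      change φ (algebraMap k Ω₁ c) ∈ W
      rw [hk]
      exact hW c
    · intro w
      rw [ValuationSubring.mem_comap, ValuationSubring.mem_comap]
      change φ (σ₁ w) ∈ W ↔ φ w ∈ W
      rw [hσ₁]
      exact hσ.1 _
    · intro w hw
      rw [ValuationSubring.mem_comap] at hw
      rw [← ValuationSubring.mem_nonunits_iff, ValuationSubring.mem_nonunits_iff_or,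
        ValuationSubring.mem_comap, map_inv₀]
      have h2 : (φ : Ω₁ →+* Ω) (σ₁ w - w) = σ (φ w) - φ w := by
        rw [map_sub]
        change φ (σ₁ w) - φ w = _
        rw [hσ₁]
      rw [h2]
      have h3 := hσ.2 _ hw
      rw [← ValuationSubring.mem_nonunits_iff, ValuationSubring.mem_nonunits_iff_or] at h3
      rcases h3 with h3 | h3
      · left
        have h4 : (φ : Ω₁ →+* Ω) (σ₁ w - w) = 0 := h2.trans h3
        exact (map_eq_zero (φ : Ω₁ →+* Ω)).1 h4
      · exact Or.inr h3
  let E₁ := Kur k K₁
  let E := Kur k K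
  let φE : E₁ →+* E := ((φ : Ω₁ →+* Ω).comp (algebraMap E₁ Ω₁)).codRestrict E.toSubfield.toSubring
    (fun z => hKur z z.2)
  have hφE : ∀ z : E₁, ((φE z : E) : Ω) = φ z := fun _ => rfl
  let _ : Algebra E₁ E := φE.toAlgebra
  have hst2 : IsScalarTower K₁ E₁ E := IsScalarTower.of_algebraMap_eq fun z => by
    apply Subtype.ext
    exact (φ.commutes z).symm
  have hnor1 : Normal K₁ E₁ := normal_Kur
  -- the constants
  have hφk : ∀ z : kbar k K₁, φ z ∈ kbar k K := by
    intro z
    rw [mem_algebraicClosure_iff]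
    have h1 := mem_algebraicClosure_iff.1 z.2
    exact h1.algHom (φ.restrictScalars k)
  let e₀ : kbar k K₁ →ₐ[k] kbar k K :=
    ((φ.restrictScalars k).comp (kbar k K₁).val).codRestrict (kbar k K).toSubalgebra hφk
  have he₀ : ∀ z, ((e₀ z : kbar k K) : Ω) = φ z := fun _ => rfl
  have hcl : IsAlgClosed (kbar k K₁) := (algebraicClosure.isAlgClosure k Ω₁).isAlgClosed
  have hbij : Function.Bijective e₀ := by
    let _ : Algebra (kbar k K₁) (kbar k K) := e₀.toRingHom.toAlgebra
    have hst3 : IsScalarTower k (kbar k K₁) (kbar k K) :=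
      IsScalarTower.of_algebraMap_eq fun z => (e₀.commutes z).symm
    have h1 : Algebra.IsAlgebraic k (kbar k K) := algebraicClosure.isAlgebraic k Ω
    have h2 : Algebra.IsIntegral (kbar k K₁) (kbar k K) :=
      ⟨fun z => (h1.isAlgebraic z).isIntegral.tower_top⟩
    exact IsAlgClosed.algebraMap_bijective_of_isIntegral
  let e : kbar k K₁ ≃ₐ[k] kbar k K := AlgEquiv.ofBijective e₀ hbij
  have he : ∀ z, ((e z : kbar k K) : Ω) = φ z := fun _ => rfl
  let conj : Gk k K₁ →* Gk k K := (AlgEquiv.autCongr e).toMonoidHom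
  have hconj : ∀ γ z, conj γ (e z) = e (γ z) := by
    intro γ z
    change e (γ (e.symm (e z))) = _
    rw [AlgEquiv.symm_apply_apply]
  let f : Gk k K₁ →* Pi1 k K₁ := (AlgEquiv.restrictNormalHom E₁).comp
    ((AlgEquiv.restrictScalarsHom K₁).comp (s.toHom.comp conj))
  have hf : ∀ (γ : Gk k K₁) (w : E₁), (φ (f γ w) : Ω) = (s.toHom (conj γ) (φE w) : E) := by
    intro γ w
    have h1 := AlgEquiv.restrictNormal_commutes (F := K₁) (K₁ := E)
      ((s.toHom (conj γ)).restrictScalars K₁) E₁ w
    exact congrArg Subtype.val h1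
  refine ⟨⟨f, ?_, ?_⟩⟩
  · -- continuity
    refine continuous_of_continuousAt_one f ?_
    rw [ContinuousAt, map_one]
    intro A hA
    rw [krullTopology_mem_nhds_one_iff] at hA
    obtain ⟨D, hD, hDA⟩ := hA
    let b := Module.finBasis K₁ D
    have hL : ∀ i, ∃ L : IntermediateField k (kbar k K), FiniteDimensional k L ∧
        ∀ σ ∈ L.fixingSubgroup, s.toHom σ (φE (b i : E₁)) = φE (b i : E₁) := fun i =>
      exists_finite_level s _
    choose L hLfin hL using hL
    rw [Filter.mem_map, krullTopology_mem_nhds_one_iff]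
    have hfin : ∀ i, FiniteDimensional k ((L i).comap (e : kbar k K₁ →ₐ[k] kbar k K)) := by
      intro i
      have := hLfin i
      let g : ((L i).comap (e : kbar k K₁ →ₐ[k] kbar k K)) →ₗ[k] L i :=
        { toFun := fun z => ⟨e z, z.2⟩
          map_add' := fun a b => Subtype.ext (map_add e (a : kbar k K₁) b)
          map_smul' := fun c a => Subtype.ext (map_smul e c (a : kbar k K₁)) }
      refine Module.Finite.of_injective g ?_
      intro a b hab
      exact Subtype.ext (e.injective (congrArg Subtype.val hab))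
    refine ⟨⨆ i, (L i).comap (e : kbar k K₁ →ₐ[k] kbar k K), ?_, ?_⟩
    · exact IntermediateField.finiteDimensional_iSup_of_finite
    · intro γ hγ
      refine hDA ?_
      rw [SetLike.mem_coe, IntermediateField.mem_fixingSubgroup_iff] at hγ ⊢
      have h1 : ∀ i, f γ (b i : E₁) = b i := by
        intro i
        have h2 : conj γ ∈ (L i).fixingSubgroup := by
          rw [IntermediateField.mem_fixingSubgroup_iff]
          intro z hz
          obtain ⟨z', rfl⟩ := e.surjective z
          rw [hconj]
          congr 1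
          refine hγ z' ?_
          exact (le_iSup (fun i => (L i).comap (e : kbar k K₁ →ₐ[k] kbar k K)) i) hz
        have h3 := hL i _ h2
        have h4 := hf γ (b i : E₁)
        rw [h3] at h4
        exact Subtype.ext (φ.toRingHom.injective h4)
      intro x hx
      have h2 : x = ∑ i, algebraMap K₁ E₁ (b.repr ⟨x, hx⟩ i) * (b i : E₁) := by
        have h3 := congrArg (fun z : D => (z : E₁)) (b.sum_repr ⟨x, hx⟩)
        simp only [AddSubmonoidClass.coe_finsetSum, IntermediateField.coe_smul] at h3
        refine h3.symm.trans (Finset.sum_congr rfl fun i _ => ?_)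
        rw [Algebra.smul_def]
      change f γ x = x
      rw [h2, map_sum]
      refine Finset.sum_congr rfl fun i _ => ?_
      rw [map_mul, AlgEquiv.commutes, h1]
  · intro γ z w hw
    apply φ.toRingHom.injective
    change φ (f γ w) = φ (γ z)
    rw [hf γ w, ← he, ← hconj]
    refine s.isSection (conj γ) (e z) (φE w) ?_
    rw [hφE, hw, he]

end Pool.Agent.TW
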