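import Pool.Agent.Helper13.TW.FinW
import Pool.Agent.Helper13.TW.Push
import Pool.Agent.Helper10.RR.TrW
import Pool.Agent.Helper10.UL.Restrict
import Pool.Agent.Helper10.UL.Reindex

/-!
# Almost all twists of a cyclic cover by the members of a linear system have no sections: arbitrary
finitely generated fields, arbitrary linear systems, and all curves which map onto the twists
-/

universe u

namespace Pool.Agent.TW

open VC UL IntermediateField Pool.Agent.Helper91.Sect

/-- `w 1 / w 0` transcendental. -/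
theorem twists_thin_one {F k K₀ : Type u} [Field F] [CharZero F] [Field k] [Algebra F k]
    [Field K₀] [Algebra k K₀]
    (hF : ∃ S : Finset F, Subfield.closure (S : Set F) = ⊤)
    (hk : ∃ S : Finset k, Subfield.closure (S : Set k) = ⊤) {m : ℕ} {w : Fin (m + 1) → k}
    (hw0 : w 0 ≠ 0) {o : Fin (m + 1)} (ho : (o : ℕ) = 1) (hT : Transcendental F (w o / w 0))
    (hK₀ : IsFunctionField k K₀) {g : K₀} (hg : g ≠ 0) :
    IsThin {a : Fin (m + 1) → F | ¬ NoSecTwist g (∑ i, algebraMap F k (a i) * w i)} := by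
  obtain ⟨n, s, hs, hT', hfin⟩ := RR.exists_tower hk hT
  have hF1 := RR.fg_adjoin (k := k) hF s
  have h0 : CharZero (adjoin F (Set.range s)) :=
    charZero_of_injective_algebraMap (algebraMap F (adjoin F (Set.range s))).injective
  have hm : 1 ≤ m := by
    have := o.2
    omega
  have h1 := twists_thin_W (F := adjoin F (Set.range s)) (k := k) (K₀ := K₀) hF1 hT' hK₀ hg hm hw0
    (fun e he => by
      have h2 : e = o := Fin.ext (he.trans ho.symm)
      rw [h2, div_mul_cancel₀ _ hw0])
  let s₁ : Fin n → adjoin F (Set.range s) := fun i => ⟨s i, subset_adjoin F _ ⟨i, rfl⟩⟩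
  have hs₁ : AlgebraicIndependent F s₁ := by
    have h2 : (fun i => algebraMap (adjoin F (Set.range s)) k (s₁ i)) = s := rfl
    rw [← h2] at hs
    exact hs.of_comp (IsScalarTower.toAlgHom F (adjoin F (Set.range s)) k)
  have htop : adjoin F (Set.range s₁) = ⊤ := by
    apply IntermediateField.lift_injective (adjoin F (Set.range s))
    rw [IntermediateField.lift_adjoin, IntermediateField.lift_top]
    congr 1
    rw [← Set.range_comp]
    rfl
  refine (h1.restrict hs₁ htop).mono ?_
  intro a ha hgood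
  apply ha
  have h2 : (fun i : Fin (m + 1) => algebraMap F k (a i) * w i) = fun i : Fin (m + 1) =>
      algebraMap (adjoin F (Set.range s)) k (algebraMap F (adjoin F (Set.range s)) (a i)) *
        w i := by
    funext i
    rw [← IsScalarTower.algebraMap_apply]
  rw [h2]
  exact hgood

/-- **Almost all twists have no sections**, arbitrary linear systems over arbitrary finitely generated
fields. -/
theorem twists_thin_any {F k K₀ : Type u} [Field F] [CharZero F] [Field k] [Algebra F k]
    [Field K₀] [Algebra k K₀]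
    (hF : ∃ S : Finset F, Subfield.closure (S : Set F) = ⊤)
    (hk : ∃ S : Finset k, Subfield.closure (S : Set k) = ⊤) {m : ℕ} {w : Fin (m + 1) → k}
    {i j : Fin (m + 1)} (hT : Transcendental F (w i / w j))
    (hK₀ : IsFunctionField k K₀) {g : K₀} (hg : g ≠ 0) :
    IsThin {a : Fin (m + 1) → F | ¬ NoSecTwist g (∑ l, algebraMap F k (a l) * w l)} := by
  classical
  have hj : w j ≠ 0 := by
    intro h0
    rw [h0, div_zero] at hT
    exact hT isAlgebraic_zero
  have hij : i ≠ j := by
    rintro rfl
    rw [div_self hj] at hT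
    exact hT isAlgebraic_one
  have hm : 1 ≤ m := by
    by_contra hm
    apply hij
    apply Fin.ext
    have h1 := i.2
    have h2 := j.2
    omega
  let o : Fin (m + 1) := ⟨1, by omega⟩
  have ho0 : (0 : Fin (m + 1)) ≠ o := by
    intro h
    have := congrArg Fin.val h
    simp [o] at this
  let i' : Fin (m + 1) := Equiv.swap 0 j i
  have hi' : i' ≠ 0 := by
    intro h
    have h1 : Equiv.swap 0 j i' = i := Equiv.swap_apply_self 0 j i
    rw [h, Equiv.swap_apply_left] at h1
    exact hij h1.symm
  let σ : Fin (m + 1) ≃ Fin (m + 1) := (Equiv.swap o i').trans (Equiv.swap 0 j)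
  have hg0 : σ 0 = j := by
    change Equiv.swap 0 j (Equiv.swap o i' 0) = j
    rw [Equiv.swap_apply_of_ne_of_ne ho0 (Ne.symm hi'), Equiv.swap_apply_left]
  have hgo : σ o = i := by
    change Equiv.swap 0 j (Equiv.swap o i' o) = i
    rw [Equiv.swap_apply_left]
    exact Equiv.swap_apply_self 0 j i
  have h1 := twists_thin_one hF hk (w := w ∘ σ) (by
    change w (σ 0) ≠ 0
    rw [hg0]; exact hj) (o := o) rfl (by
    change Transcendental F (w (σ o) / w (σ 0))
    rw [hg0, hgo]; exact hT) hK₀ hg
  refine (h1.reindex σ).mono ?_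
  intro a ha
  have h2 : ∑ l, algebraMap F k ((a ∘ σ) l) * (w ∘ σ) l = ∑ l, algebraMap F k (a l) * w l :=
    Equiv.sum_comp σ fun l => algebraMap F k (a l) * w l
  change ¬ NoSecTwist g (∑ l, algebraMap F k ((a ∘ σ) l) * (w ∘ σ) l)
  rw [h2]
  exact ha

/-- The twists and all curves which map onto them have no sections. -/
theorem isEmpty_of_noSecTwist {k K₀ : Type u} [Field k] [Field K₀] [Algebra k K₀] {g : K₀} {v : k}
    (h : NoSecTwist g v) {n j : ℕ} (hn : 0 < n) (hj : ¬ n ∣ j)
    (hO : ∀ O : Place k K₀, RatPlace O → ∃ δ : ℕ, δ ∣ n ∧ ¬ δ ∣ j ∧ (δ : ℤ) ∣ ord O.ring g)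
    (K : Type u) [Field K] [Algebra k K] [Algebra K₀ K] [IsScalarTower k K₀ K] (y : K)
    (hy : algebraMap k K (v ^ j) * y ^ n = algebraMap K₀ K g)
    (hrat : ∀ z : Pool.Agent.LT.MM k (adjoin K₀ {y}),
      IntermediateField.adjoin (kbar k (adjoin K₀ {y})) {z} ≠ ⊤) :
    IsEmpty (GaloisSection k K) := by
  refine ⟨fun s => ?_⟩
  have hst : IsScalarTower k (adjoin K₀ {y}) K := IsScalarTower.of_algebraMap_eq fun _ => rfl
  obtain ⟨s₁⟩ := push (K₁ := adjoin K₀ {y}) s
  have h1 : adjoin K₀ {(⟨y, mem_adjoin_simple_self K₀ y⟩ : adjoin K₀ {y})} = ⊤ := by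
    apply IntermediateField.lift_injective (adjoin K₀ {y})
    rw [IntermediateField.lift_adjoin, IntermediateField.lift_top, Set.image_singleton]
  refine (h n j hn hj hO (adjoin K₀ {y}) ⟨y, mem_adjoin_simple_self K₀ y⟩ h1 ?_ hrat).false s₁
  apply Subtype.ext
  exact hy

end Pool.Agent.TW
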