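import Pool.Agent.Helper37.TW.T8
import Pool.Agent.Helper10.UL.ThinOne

/-!
# Places of a function field of one variable: the form which is used
-/

universe u

namespace Pool.Agent.TW

open UL

theorem thin_places {F k C : Type u} [Field F] [CharZero F] [Field k] [Algebra F k] [Field C]
    [Algebra k C] [IsAlgClosure k C] {T : k} (hT : Transcendental F T)
    [FiniteDimensional (IntermediateField.adjoin F {T}) k] {m : ℕ} (hm : 1 ≤ m) (B : Finset C)
    (hB : ∀ b ∈ B, b ∉ Set.range (algebraMap k C)) (U0 : Finset C) (hU0 : 0 ∉ U0) :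
    IsThin {a : Fin (m + 1) → F | ¬ ∃ W : ValuationSubring C, W ≠ ⊤ ∧
      (∀ c : F, algebraMap k C (algebraMap F k c) ∈ W) ∧ (∀ u ∈ U0, W.valuation u = 1) ∧
      algebraMap k C (∑ i, algebraMap F k (a i) * T ^ (i : ℕ)) ∈ W.nonunits ∧
      (∀ z : k, z ≠ 0 → ∃ i : ℤ, W.valuation (algebraMap k C z) =
        W.valuation (algebraMap k C (∑ i, algebraMap F k (a i) * T ^ (i : ℕ))) ^ i) ∧
      ∀ b ∈ B, ∃ γ : C ≃ₐ[k] C, (∀ z, γ z ∈ W ↔ z ∈ W) ∧ γ b ≠ b} := by
  have hcl : IsAlgClosed C := IsAlgClosure.isAlgClosed k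
  have hal : Algebra.IsAlgebraic k C := IsAlgClosure.isAlgebraic
  let _ : Algebra F C := ((algebraMap k C).comp (algebraMap F k)).toAlgebra
  have hst : IsScalarTower F k C := IsScalarTower.of_algebraMap_eq fun _ => rfl
  refine IsThin.mono (_root_.TW.thin_places (Ω := C) hT hm B hB U0 (fun u hu h => hU0 (h ▸ hu))) ?_
  intro a ha hcon
  apply ha
  obtain ⟨W, τ, hW, h1, h2, h3, h4, h5⟩ := hcon
  have hv0 : algebraMap k C (∑ i, algebraMap F k (a i) * T ^ (i : ℕ)) ≠ 0 :=
    (map_ne_zero_iff _ (algebraMap k C).injective).2 h2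
  have hvn : algebraMap k C (∑ i, algebraMap F k (a i) * T ^ (i : ℕ)) ∈ W.nonunits :=
    W.mem_nonunits_iff.2 h3
  refine ⟨W, ?_, ?_, h1, hvn, h4, h5⟩
  · rintro rfl
    have h6 : (⊤ : ValuationSubring C).valuation
        (algebraMap k C (∑ i, algebraMap F k (a i) * T ^ (i : ℕ)))⁻¹ ≤ 1 :=
      ((⊤ : ValuationSubring C).valuation_le_one_iff _).2 (by trivial)
    rw [map_inv₀] at h6
    have h7 : (⊤ : ValuationSubring C).valuation
        (algebraMap k C (∑ i, algebraMap F k (a i) * T ^ (i : ℕ))) ≠ 0 :=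
      ((⊤ : ValuationSubring C).valuation.ne_zero_iff).2 hv0
    exact absurd h3 (not_lt.2 ((inv_le_one₀ (zero_lt_iff.2 h7)).1 h6))
  · intro c
    exact hW.const (algebraMap F (algebraicClosure F C) c)

end Pool.Agent.TW
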