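import Mathlib
import Pool.Agent.Helper26.VC.Main3
import Pool.Agent.Helper13.TD.DXR

/-!
# Places of function fields over arbitrary fields of characteristic zero
-/

universe u

namespace Pool.Agent.TW

open VC Polynomial IntermediateField WithZero IsDedekindDomain

variable {k F : Type*} [Field k] [Field F] [Algebra k F]

lemma transc_of_nonunit (P : Place k F) {t : F} (ht0 : t ≠ 0)
    (ht : t ∈ P.ring.nonunits) : Transcendental k t := by
  intro halg
  have h1 : IsIntegral k t⁻¹ := halg.inv.isIntegral
  have h2 : t⁻¹ ∈ P.ring := by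
    let f : k →+* P.ring := (algebraMap k F).codRestrict P.ring P.algebraMap_mem
    obtain ⟨p, hp, hp'⟩ := h1
    have h3 : IsIntegral P.ring t⁻¹ := by
      refine ⟨p.map f, hp.map f, ?_⟩
      rw [Polynomial.eval₂_map]
      exact hp'
    obtain ⟨y, hy⟩ := IsIntegrallyClosed.isIntegral_iff.mp h3
    rw [← hy]
    exact y.2
  rcases (ValuationSubring.mem_nonunits_iff_or _).mp ht with h | h
  · exact ht0 h
  · exact h h2

variable [CharZero k]

/-- Every place of a function field comes from a discrete valuation. -/
theorem exists_val (hF : IsFunctionField k F) (P : Place k F) :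
    ∃ w : Valuation F (WithZero (Multiplicative ℤ)), w.valuationSubring = P.ring ∧
      ∃ π, w π = exp (-1 : ℤ) := by
  obtain ⟨x, hx⟩ : ∃ x : F, x ∉ P.ring := by
    by_contra hcon
    push Not at hcon
    exact P.ne_top (eq_top_iff.mpr (fun x _ => hcon x))
  have hx0 : x ≠ 0 := by
    rintro rfl
    exact hx P.ring.zero_mem
  set t := x⁻¹ with htdef
  have ht : t ∈ P.ring.nonunits := by
    rw [htdef, ValuationSubring.inv_mem_nonunits_iff]
    exact Or.inr hx
  have htr : Transcendental k t := transc_of_nonunit P (inv_ne_zero hx0) ht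
  have hfin := hF.finiteDimensional htr
  let i1 : Algebra k[X] F := polyAlg t
  let i3 : Algebra (RatFunc k) F := ratAlg t htr
  have s1 : IsScalarTower k k[X] F := IsScalarTower.of_algebraMap_eq (fun x =>
    (aeval t : k[X] →ₐ[k] F).commutes x |>.symm)
  have s3 : IsScalarTower k[X] (RatFunc k) F := IsScalarTower.of_algebraMap_eq (fun x =>
    (ratAlg_poly t htr x).symm)
  have f1 : FiniteDimensional (RatFunc k) F := finiteDimensional_ratAlg t htr hfin
  have hc0 : CharZero (RatFunc k) := charZero_of_injective_algebraMap (algebraMap k (RatFunc k)).injective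
  have hBd : IsDedekindDomain (integralClosure k[X] F) :=
    integralClosure.isDedekindDomain k[X] (RatFunc k) F
  have hBf : IsFractionRing (integralClosure k[X] F) F :=
    integralClosure.isFractionRing_of_finite_extension (RatFunc k) F
  have f1 : FaithfulSMul k[X] (integralClosure k[X] F) := by
    rw [faithfulSMul_iff_algebraMap_injective]
    intro x y hxy
    have h := congrArg (algebraMap (integralClosure k[X] F) F) hxy
    rw [← IsScalarTower.algebraMap_apply, ← IsScalarTower.algebraMap_apply,
      IsScalarTower.algebraMap_apply k[X] (RatFunc k) F,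
      IsScalarTower.algebraMap_apply k[X] (RatFunc k) F] at h
    exact IsFractionRing.injective k[X] (RatFunc k) ((algebraMap (RatFunc k) F).injective h)
  have hP : OverZero P := by
    unfold OverZero
    have : algebraMap k[X] F X = t := by
      change aeval t X = t
      simp
    rw [this]
    exact ht
  exact ⟨(hos (integralClosure k[X] F) P hP).valuation F,
    valuationSubring_hos (integralClosure k[X] F) P hP,
    (hos (integralClosure k[X] F) P hP).valuation_exists_uniformizer F⟩

/-- A transcendental function has finitely many zeros. -/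
theorem finite_zeros (hF : IsFunctionField k F) {t : F} (htr : Transcendental k t) :
    {P : Place k F | t ∈ P.ring.nonunits}.Finite := by
  have hfin := hF.finiteDimensional htr
  let i1 : Algebra k[X] F := polyAlg t
  let i3 : Algebra (RatFunc k) F := ratAlg t htr
  have s1 : IsScalarTower k k[X] F := IsScalarTower.of_algebraMap_eq (fun x =>
    (aeval t : k[X] →ₐ[k] F).commutes x |>.symm)
  have s3 : IsScalarTower k[X] (RatFunc k) F := IsScalarTower.of_algebraMap_eq (fun x =>
    (ratAlg_poly t htr x).symm)
  have f1 : FiniteDimensional (RatFunc k) F := finiteDimensional_ratAlg t htr hfin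
  have hc0 : CharZero (RatFunc k) := charZero_of_injective_algebraMap (algebraMap k (RatFunc k)).injective
  have hBd : IsDedekindDomain (integralClosure k[X] F) :=
    integralClosure.isDedekindDomain k[X] (RatFunc k) F
  have hBf : IsFractionRing (integralClosure k[X] F) F :=
    integralClosure.isFractionRing_of_finite_extension (RatFunc k) F
  have hBfin : Module.Finite k[X] (integralClosure k[X] F) :=
    IsIntegralClosure.finite k[X] (RatFunc k) F (integralClosure k[X] F)
  have f1 : FaithfulSMul k[X] (integralClosure k[X] F) := by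
    rw [faithfulSMul_iff_algebraMap_injective]
    intro x y hxy
    have h := congrArg (algebraMap (integralClosure k[X] F) F) hxy
    rw [← IsScalarTower.algebraMap_apply, ← IsScalarTower.algebraMap_apply,
      IsScalarTower.algebraMap_apply k[X] (RatFunc k) F,
      IsScalarTower.algebraMap_apply k[X] (RatFunc k) F] at h
    exact IsFractionRing.injective k[X] (RatFunc k) ((algebraMap (RatFunc k) F).injective h)
  have hX : algebraMap k[X] F X = t := by
    change aeval t X = t
    simp
  have hov : ∀ P : Place k F, t ∈ P.ring.nonunits → OverZero P := by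
    intro P hP
    unfold OverZero
    rw [hX]
    exact hP
  have hfinp : Finite ((Ideal.span {(X : k[X])}).primesOver (integralClosure k[X] F)) :=
    Algebra.QuasiFinite.finite_primesOver _
  rw [← Set.finite_coe_iff]
  let g : {P : Place k F | t ∈ P.ring.nonunits} →
      (Ideal.span {(X : k[X])}).primesOver (integralClosure k[X] F) :=
    fun P => ⟨center (integralClosure k[X] F) P.1 (hov P.1 P.2), inferInstance, inferInstance⟩
  refine Finite.of_injective g ?_
  intro P P' h
  apply Subtype.ext
  apply center_injective (integralClosure k[X] F) P.1 P'.1 (hov P.1 P.2) (hov P'.1 P'.2)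
  exact congrArg Subtype.val h

omit [CharZero k] in
lemma aeval_mem_ring (P : Place k F) {z : F} (hz : z ∈ P.ring) (q : k[X]) : aeval z q ∈ P.ring := by
  rw [aeval_eq_sum_range]
  refine sum_mem fun i _ => ?_
  rw [Algebra.smul_def]
  exact P.ring.mul_mem _ _ (P.algebraMap_mem _) (pow_mem hz i)

/-- The residue field of a place is algebraic. -/
theorem res_alg {k F : Type u} [Field k] [Field F] [Algebra k F] (hF : IsFunctionField k F)
    (P : Place k F) {z : F} (hz : z ∈ P.ring) :
    ∃ q : k[X], q ≠ 0 ∧ aeval z q ∈ P.ring.nonunits := by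
  by_cases h : Transcendental k z
  · -- an element of the maximal ideal
    obtain ⟨x, hx⟩ : ∃ x : F, x ∉ P.ring := by
      by_contra hcon
      push Not at hcon
      exact P.ne_top (eq_top_iff.mpr (fun x _ => hcon x))
    have hx0 : x ≠ 0 := by
      rintro rfl
      exact hx P.ring.zero_mem
    have ht : x⁻¹ ∈ P.ring.nonunits := by
      rw [ValuationSubring.inv_mem_nonunits_iff]
      exact Or.inr hx
    have ht0 : x⁻¹ ≠ 0 := inv_ne_zero hx0
    have hfin := hF.finiteDimensional h
    have halg : IsAlgebraic k⟮z⟯ x⁻¹ := Algebra.IsAlgebraic.isAlgebraic _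
    obtain ⟨b, hb, hbz⟩ := Pool.Agent.TD.exists_poly_rel h halg
    obtain ⟨b', hb'⟩ : X ^ b.natTrailingDegree ∣ b :=
      X_pow_dvd_iff.2 fun i hi => coeff_eq_zero_of_lt_natTrailingDegree hi
    have hb0 : b'.coeff 0 ≠ 0 := by
      have h1 : b.coeff b.natTrailingDegree ≠ 0 := trailingCoeff_nonzero_iff_nonzero.2 hb
      have h2 : b.coeff b.natTrailingDegree = b'.coeff 0 := by
        have h3 := coeff_X_pow_mul b' b.natTrailingDegree 0
        rwa [zero_add, ← hb'] at h3
      rwa [h2] at h1
    have hbz' : eval₂ (aeval z : k[X] →ₐ[k] F).toRingHom x⁻¹ b' = 0 := by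
      rw [hb', eval₂_mul, eval₂_X_pow] at hbz
      exact (mul_eq_zero.1 hbz).resolve_left (pow_ne_zero _ ht0)
    refine ⟨b'.coeff 0, hb0, ?_⟩
    rw [← divX_mul_X_add b', eval₂_add, eval₂_mul, eval₂_X, eval₂_C] at hbz'
    have h1 : eval₂ (aeval z : k[X] →ₐ[k] F).toRingHom x⁻¹ b'.divX ∈ P.ring := by
      rw [eval₂_eq_sum_range]
      exact sum_mem fun i _ => P.ring.mul_mem _ _ (aeval_mem_ring P hz _)
        (pow_mem (ValuationSubring.nonunits_subset ht) i)
    have h2 : aeval z (b'.coeff 0) =
        -(eval₂ (aeval z : k[X] →ₐ[k] F).toRingHom x⁻¹ b'.divX * x⁻¹) :=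
      eq_neg_of_add_eq_zero_right hbz'
    rw [h2, ValuationSubring.mem_nonunits_iff, Valuation.map_neg, map_mul]
    exact lt_of_le_of_lt (mul_le_of_le_one_left' ((P.ring.valuation_le_one_iff _).2 h1))
      ((ValuationSubring.mem_nonunits_iff _).1 ht)
  · have h1 : IsAlgebraic k z := by
      by_contra hcon
      exact h hcon
    obtain ⟨q, hq, hq0⟩ := h1
    refine ⟨q, hq, ?_⟩
    rw [hq0]
    exact (ValuationSubring.mem_nonunits_iff_or _).2 (Or.inl rfl)

end Pool.Agent.TW
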