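import Pool.Agent.Helper13.GC.D2
import Pool.Agent.Helper13.TW.FP1
import Pool.Agent.Helper13.TW.P0

/-!
# Twists without sections: from a section to the two cases
-/

universe u

set_option linter.unusedSectionVars false

namespace Pool.Agent.TW

open VC Polynomial Pool.Agent.LT Pool.Agent.SC Pool.Agent.Helper91.Sect Pool.Agent Pool.Agent.GC

/-- The residue field of the place `O` is `k`. -/
def RatPlace {k K₀ : Type u} [Field k] [Field K₀] [Algebra k K₀] (O : Place k K₀) : Prop :=
  ∀ z ∈ O.ring, ∃ c : k, z - algebraMap k K₀ c ∈ O.ring.nonunits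

section places

variable {k K₀ : Type u} [Field k] [Field K₀] [Algebra k K₀]

lemma exists_of_not_rat (hF : IsFunctionField k K₀) (O : Place k K₀) (hO : ¬ RatPlace O) :
    ∃ z ∈ O.ring, (∀ c : k, z - algebraMap k K₀ c ∉ O.ring.nonunits) ∧
      ∃ q : k[X], q ≠ 0 ∧ aeval z q ∈ O.ring.nonunits := by
  unfold RatPlace at hO
  push Not at hO
  obtain ⟨z, hz, h1⟩ := hO
  exact ⟨z, hz, h1, res_alg hF O hz⟩

lemma exists_of_rat [CharZero k] (hF : IsFunctionField k K₀) (O : Place k K₀) (hO : RatPlace O)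
    {g : K₀} (hg : g ≠ 0) :
    ∃ γ : k, γ ≠ 0 ∧ ∀ n : ℕ, (n : ℤ) ∣ ord O.ring g → ∃ u : K₀, u ≠ 0 ∧
      g * u ^ n - algebraMap k K₀ γ ∈ O.ring.nonunits := by
  obtain ⟨w, hw, π, hπ⟩ := exists_val hF O
  have hπ0 : π ≠ 0 := by
    rintro rfl
    rw [map_zero] at hπ
    exact WithZero.exp_ne_zero hπ.symm
  have h1 : w (g * π ^ (-ord O.ring g)) = 1 := by
    rw [map_mul, valuation_eq_exp_ord hw hπ hg, map_zpow₀, hπ, ← WithZero.exp_zsmul,
      ← WithZero.exp_add, ← WithZero.exp_zero]
    congr 1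
    simp
  have h2 : g * π ^ (-ord O.ring g) ∈ O.ring := by
    have h3 := (Valuation.mem_valuationSubring_iff w _).2 h1.le
    rwa [hw] at h3
  obtain ⟨γ, hγ⟩ := hO _ h2
  refine ⟨γ, ?_, ?_⟩
  · rintro rfl
    rw [map_zero, sub_zero, mem_nonunits_of_valuation hw, h1] at hγ
    exact lt_irrefl _ hγ
  · rintro n ⟨q, hq⟩
    refine ⟨π ^ (-q), zpow_ne_zero _ hπ0, ?_⟩
    have h3 : (π ^ (-q)) ^ n = π ^ (-ord O.ring g) := by
      rw [hq, ← zpow_natCast, ← zpow_mul]
      congr 1
      ring
    rw [h3]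
    exact hγ

end places

lemma aeval_sub_mem {A U : Type*} [Field A] [Field U] [Algebra A U] (P : ValuationSubring U)
    (hP : ∀ c : A, algebraMap A U c ∈ P) {z : U} {c : A} (hz : z - algebraMap A U c ∈ P.nonunits)
    (Q : A[X]) : aeval z Q - algebraMap A U (Q.eval c) ∈ P.nonunits := by
  have hzP : z ∈ P := by
    have h1 := P.add_mem _ _ (ValuationSubring.nonunits_subset hz) (hP c)
    rwa [sub_add_cancel] at h1
  obtain ⟨R, hR⟩ : X - C c ∣ Q - C (Q.eval c) := X_sub_C_dvd_sub_C_eval
  have h1 := congrArg (aeval z) hR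
  rw [map_sub, aeval_C, map_mul, map_sub, aeval_X, aeval_C] at h1
  rw [h1, ValuationSubring.mem_nonunits_iff, map_mul]
  have h2 : aeval z R ∈ P := by
    rw [aeval_eq_sum_range]
    refine sum_mem fun i _ => ?_
    rw [Algebra.smul_def]
    exact P.mul_mem _ _ (hP _) (pow_mem hzP i)
  exact lt_of_le_of_lt (mul_le_of_le_one_right' ((P.valuation_le_one_iff _).2 h2))
    ((ValuationSubring.mem_nonunits_iff _).1 hz)

/-- **From a section to the two cases.** -/
theorem no_section_core {F k K₀ : Type u} [Field F] [CharZero F] [Field k] [Algebra F k]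
    [Field K₀] [Algebra k K₀]
    (hF : ∃ S : Finset F, Subfield.closure (S : Set F) = ⊤)
    (hk : ∃ S : Finset k, Subfield.closure (S : Set k) = ⊤)
    {t : k} (hfin : FiniteDimensional (IntermediateField.adjoin F {t}) k)
    {g x z₀ : K₀} {f : k[X]} {S₀ : Finset k} (hc : Coord g x z₀ f S₀) :
    ∃ (M : Finset k[X]) (U₀ : Finset k), (∀ q ∈ M, q ≠ 0) ∧ 0 ∉ U₀ ∧
      ∀ (v : k) (n j : ℕ), 0 < n → ¬ n ∣ j →
      (∀ O : Place k K₀, RatPlace O → ∃ δ : ℕ, δ ∣ n ∧ ¬ δ ∣ j ∧ (δ : ℤ) ∣ ord O.ring g) →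
      ∀ (K : Type u) [Field K] [Algebra k K] [Algebra K₀ K] [IsScalarTower k K₀ K] (y : K),
      IntermediateField.adjoin K₀ {y} = ⊤ → algebraMap k K (v ^ j) * y ^ n = algebraMap K₀ K g →
      (∀ z : MM k K, IntermediateField.adjoin (kbar k K) {z} ≠ ⊤) →
      ∀ W : ValuationSubring (kbar k K), W ≠ ⊤ →
      (∀ c : F, algebraMap k (kbar k K) (algebraMap F k c) ∈ W) →
      (∀ u ∈ U₀, W.valuation (algebraMap k (kbar k K) u) = 1) →
      algebraMap k (kbar k K) v ∈ W.nonunits → v ≠ 0 →
      (∀ z : k, z ≠ 0 → ∃ i : ℤ, W.valuation (algebraMap k (kbar k K) z) =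
        W.valuation (algebraMap k (kbar k K) v) ^ i) →
      (∀ q ∈ M, ∀ ρ : kbar k K, aeval ρ q = 0 → (∀ c : k, algebraMap k (kbar k K) c ≠ ρ) →
        ∃ γ : Gk k K, InDecomp W γ ∧ γ ρ ≠ ρ) →
      IsEmpty (GaloisSection k K) := by
  classical
  have hk0 : CharZero k := charZero_of_injective_algebraMap (algebraMap F k).injective
  have hx0 : x ≠ 0 := by
    rintro rfl
    exact hc.x_tr isAlgebraic_zero
  have htx : Transcendental k x⁻¹ := fun h => hc.x_tr (by rw [← inv_inv x]; exact h.inv)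
  have htf : Transcendental k (aeval x f) := hc.x_tr.aeval f (by have := hc.deg; omega)
    (mem_nonZeroDivisors_of_ne_zero
      (leadingCoeff_ne_zero.2 (ne_zero_of_natDegree_gt (n := 0) (by have := hc.deg; omega))))
  let OO : Set (Place k K₀) := {O | x⁻¹ ∈ O.ring.nonunits} ∪ {O | aeval x f ∈ O.ring.nonunits}
  have hOO : OO.Finite := (finite_zeros hc.ff htx).union (finite_zeros hc.ff htf)
  have hA : ∀ O : Place k K₀, ∃ q : k[X], q ≠ 0 ∧ (¬ RatPlace O → ∃ z ∈ O.ring,
      (∀ c : k, z - algebraMap k K₀ c ∉ O.ring.nonunits) ∧ aeval z q ∈ O.ring.nonunits) := by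
    intro O
    by_cases h : RatPlace O
    · exact ⟨1, one_ne_zero, fun h' => absurd h h'⟩
    · obtain ⟨z, hz, h1, q, hq, h2⟩ := exists_of_not_rat hc.ff O h
      exact ⟨q, hq, fun _ => ⟨z, hz, h1, h2⟩⟩
  have hB : ∀ O : Place k K₀, ∃ γ : k, γ ≠ 0 ∧ (RatPlace O → ∀ n : ℕ, (n : ℤ) ∣ ord O.ring g →
      ∃ u : K₀, u ≠ 0 ∧ g * u ^ n - algebraMap k K₀ γ ∈ O.ring.nonunits) := by
    intro O
    by_cases h : RatPlace O
    · obtain ⟨γ, hγ, h1⟩ := exists_of_rat hc.ff O h hc.g_ne
      exact ⟨γ, hγ, fun _ => h1⟩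
    · exact ⟨1, one_ne_zero, fun h' => absurd h' h⟩
  choose qf hqf hqf' using hA
  choose uf huf huf' using hB
  refine ⟨hOO.toFinset.image qf, hOO.toFinset.image uf ∪ (goodElts f 1 ∪ S₀).erase 0, ?_, ?_, ?_⟩
  · intro q hq
    obtain ⟨O, -, rfl⟩ := Finset.mem_image.1 hq
    exact hqf O
  · intro h
    rcases Finset.mem_union.1 h with h | h
    · obtain ⟨O, -, h1⟩ := Finset.mem_image.1 h
      exact huf O h1
    · exact (Finset.mem_erase.1 h).1 rfl
  intro v n j hn hj hbr K _ _ _ _ y hgen heq hrat W hWtop hFW hU hvW hv0 hdisc hmove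
  refine ⟨fun s => ?_⟩
  let iFK : Algebra F K := ((algebraMap k K).comp (algebraMap F k)).toAlgebra
  have sFK : IsScalarTower F k K := IsScalarTower.of_algebraMap_eq fun _ => rfl
  have hS : CycE n (v ^ j) g x z₀ f S₀ y :=
    ⟨hn, pow_ne_zero _ hv0, hc.g_ne, hc.ff, hc.x_tr, hc.gen₀, hgen, heq, hc.deg, hc.sep,
      hc.good⟩
  have hmemU : ∀ a ∈ goodElts f 1 ∪ S₀, algebraMap k (kbar k K) a ∈ W := by
    intro a ha
    by_cases h0 : a = 0
    · rw [h0, map_zero]
      exact W.zero_mem
    · refine (W.valuation_le_one_iff _).1 (hU a ?_).le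
      exact Finset.mem_union_right _ (Finset.mem_erase.2 ⟨h0, ha⟩)
  obtain ⟨hgr, -, -⟩ := goodRed_of_goodElts (c := (1 : k)) (by have := hc.deg; omega) hc.sep one_ne_zero
    (fun a ha => hmemU a (Finset.mem_union_left _ ha))
  have h1W : algebraMap k (kbar k K) 1 ∉ W.nonunits := by
    rw [map_one, ValuationSubring.mem_nonunits_iff, map_one]
    exact lt_irrefl _
  obtain ⟨P, hP, hP1, hPst, hPB⟩ := hS.place_of_bad (k₁ := F) s hk hrat hF t hfin hWtop
    (fun c => hFW c) hgr (fun a ha => hmemU a (Finset.mem_union_right _ ha)) hvW hv0 hdisc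
    (mul_one _).symm hj (by rw [map_one]; exact W.one_mem) h1W
  -- residues
  have hres : ∀ z : K, (toU (k := k) (K := K) z : UU k K) ∈ P → ∃ c : kbar k K,
      toU (k := k) (K := K) z - algebraMap (kbar k K) (UU k K) c ∈ P.nonunits ∧
        ∀ γ : Gk k K, InDecomp W γ → γ c = c := by
    let V : ValuationSubring (Kur k K) :=
      P.comap ((eU k K : Kur k K ≃+* UU k K) : Kur k K →+* UU k K)
    have hV : ∀ w : Kur k K, w ∈ V ↔ eU k K w ∈ P := fun w => Iff.rfl
    have hVt : V ≠ ⊤ := by
      intro h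
      apply hP1
      rw [eq_top_iff]
      intro z _
      have h2 : (eU k K).symm z ∈ V := by rw [h]; trivial
      rwa [hV, RingEquiv.apply_symm_apply] at h2
    intro z hz
    obtain ⟨c, hc1, hc2⟩ := exists_residue_fixed s hS.isFunctionField hVt (fun c => hP c) (z := z) hz
    refine ⟨c, ?_, fun γ hγ => hc2 γ fun w => ?_⟩
    · rw [← ValuationSubring.mem_nonunits_iff] at hc1
      rw [ValuationSubring.mem_nonunits_iff_or] at hc1 ⊢
      rcases hc1 with h | h
      · left
        exact congrArg (eU k K) h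
      · right
        intro h3
        apply h
        rw [hV, map_inv₀]
        exact h3
    · rw [hV, hV, ← hPst γ hγ (eU k K w)]
      have h4 : eU k K (s.toHom γ w) = actU s γ (eU k K w) := by
        apply Subtype.ext
        rw [coe_actU]
        rfl
      rw [h4]
  -- the place of `K₀`
  let ι : K₀ →+* UU k K := (toU (k := k) (K := K)).comp (algebraMap K₀ K)
  have hιk : ∀ c : k, ι (algebraMap k K₀ c) = algebraMap (kbar k K) (UU k K) (algebraMap k (kbar k K) c) := by
    intro c
    change toU (k := k) (K := K) (algebraMap K₀ K (algebraMap k K₀ c)) = _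
    rw [← IsScalarTower.algebraMap_apply]
    rfl
  have hnon : ∀ z : K₀, z ∈ (P.comap ι).nonunits ↔ ι z ∈ P.nonunits := by
    intro z
    rw [ValuationSubring.mem_nonunits_iff_or, ValuationSubring.mem_nonunits_iff_or,
      ValuationSubring.mem_comap, map_inv₀, map_eq_zero]
  have hιa : ∀ (z : K₀) (q : k[X]), ι (aeval z q) =
      aeval (ι z) (q.map (algebraMap k (kbar k K))) := by
    intro z q
    rw [aeval_def, hom_eval₂, aeval_def, eval₂_map]
    congr 1
    exact RingHom.ext hιk
  have hbad : x⁻¹ ∈ (P.comap ι).nonunits ∨ aeval x f ∈ (P.comap ι).nonunits := by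
    rcases hPB with h | ⟨b, hb, hxb⟩
    · left
      rw [ValuationSubring.inv_mem_nonunits_iff]
      exact Or.inr h
    · right
      rw [hnon, hιa]
      have h1 := aeval_sub_mem P hP hxb (f.map (algebraMap k (kbar k K)))
      have h2 : (f.map (algebraMap k (kbar k K))).eval b = 0 := by
        unfold rootsB at hb
        rw [Multiset.mem_toFinset] at hb
        exact (mem_roots'.1 hb).2
      rw [h2, map_zero, sub_zero] at h1
      exact h1
  let O : Place k K₀ :=
    { ring := P.comap ι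
      algebraMap_mem := fun c => by
        rw [ValuationSubring.mem_comap, hιk]
        exact hP _
      ne_top := by
        intro h
        have h1 : ∀ z : K₀, z ≠ 0 → z ∉ (P.comap ι).nonunits := by
          intro z hz h2
          rcases (ValuationSubring.mem_nonunits_iff_or _).1 h2 with h3 | h3
          · exact hz h3
          · apply h3
            rw [h]
            trivial
        rcases hbad with h2 | h2
        · exact h1 _ (inv_ne_zero hx0) h2
        · refine h1 _ ?_ h2
          intro h3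
          exact htf (by rw [h3]; exact isAlgebraic_zero) }
  have hO : O ∈ hOO.toFinset := by
    rw [Set.Finite.mem_toFinset]
    exact hbad
  have hconst : ∀ c : kbar k K, algebraMap (kbar k K) (UU k K) c ∈ P.nonunits → c = 0 := by
    intro c hc'
    rcases (ValuationSubring.mem_nonunits_iff_or _).1 hc' with h | h
    · rwa [map_eq_zero] at h
    · exfalso
      apply h
      rw [← map_inv₀]
      exact hP _
  by_cases hr : RatPlace O
  · -- a rational branch point
    obtain ⟨δ, ⟨e, hδe⟩, hδj, hδO⟩ := hbr O hr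
    have hδ : 0 < δ := Nat.pos_of_ne_zero (by rintro rfl; omega)
    obtain ⟨u, hu0, hu⟩ := huf' O hr δ hδO
    have hW1 := hU (uf O) (Finset.mem_union_left _ (Finset.mem_image_of_mem _ hO))
    change _ ∈ (P.comap ι).nonunits at hu
    rw [hnon, map_sub, hιk] at hu
    have hval : ∀ c : kbar k K, c ≠ 0 → P.valuation (algebraMap (kbar k K) (UU k K) c) = 1 := by
      intro c hc'
      have h1 := (P.valuation_le_one_iff _).2 (hP c)
      have h2 := (P.valuation_le_one_iff _).2 (hP c⁻¹)
      rw [map_inv₀, map_inv₀] at h2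
      have h3 : P.valuation (algebraMap (kbar k K) (UU k K) c) ≠ 0 :=
        (Valuation.ne_zero_iff _).2 ((_root_.map_ne_zero _).2 hc')
      exact le_antisymm h1 ((inv_le_one₀ (zero_lt_iff.2 h3)).1 h2)
    have hγ0 : algebraMap k (kbar k K) (uf O) ≠ 0 := (_root_.map_ne_zero _).2 (huf O)
    have hvj0 : algebraMap k (kbar k K) v ^ j ≠ 0 := pow_ne_zero _ ((_root_.map_ne_zero _).2 hv0)
    set Y : UU k K := toU (k := k) (K := K) (y ^ e * algebraMap K₀ K u) with hY
    have hYn : algebraMap (kbar k K) (UU k K) (algebraMap k (kbar k K) v ^ j) * Y ^ δ =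
        ι (g * u ^ δ) := by
      have h1 : algebraMap k K (v ^ j) * (y ^ e * algebraMap K₀ K u) ^ δ =
          algebraMap K₀ K (g * u ^ δ) := by
        rw [mul_pow, ← pow_mul, mul_comm e δ, ← hδe, ← mul_assoc, heq, map_mul, map_pow]
      have h2 := congrArg (toU (k := k) (K := K)) h1
      rw [map_mul, map_pow (toU (k := k) (K := K)) (y ^ e * algebraMap K₀ K u) δ] at h2
      rw [← map_pow]
      exact h2
    have hYv : P.valuation Y = 1 := by
      have h1 : P.valuation (ι (g * u ^ δ)) = 1 := by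
        have h2 := Valuation.map_add_eq_of_lt_right P.valuation
          (x := ι (g * u ^ δ) - algebraMap (kbar k K) (UU k K) (algebraMap k (kbar k K) (uf O)))
          (y := algebraMap (kbar k K) (UU k K) (algebraMap k (kbar k K) (uf O)))
          (by rw [hval _ hγ0]; exact (ValuationSubring.mem_nonunits_iff _).1 hu)
        rw [sub_add_cancel, hval _ hγ0] at h2
        exact h2
      rw [← hYn, map_mul, hval _ hvj0, one_mul, map_pow] at h1
      exact (pow_eq_one_iff_of_nonneg zero_le hδ.ne').1 h1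
    obtain ⟨ρ, hρ1, hρ2⟩ := hres (y ^ e * algebraMap K₀ K u) ((P.valuation_le_one_iff _).1 hYv.le)
    have hρ3 : ρ ^ δ * algebraMap k (kbar k K) v ^ j = algebraMap k (kbar k K) (uf O) := by
      rw [← sub_eq_zero]
      apply hconst
      have h1 := aeval_sub_mem P hP hρ1
        (C (algebraMap k (kbar k K) v ^ j) * X ^ δ : (kbar k K)[X])
      rw [map_mul, aeval_C, map_pow (aeval (toU (k := k) (K := K) (y ^ e * algebraMap K₀ K u) : UU k K)) X δ, aeval_X,
        eval_mul, eval_C, eval_pow, eval_X] at h1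
      change algebraMap (kbar k K) (UU k K) (algebraMap k (kbar k K) v ^ j) * Y ^ δ - _ ∈ _ at h1
      rw [hYn] at h1
      have h2 : algebraMap (kbar k K) (UU k K) (ρ ^ δ * algebraMap k (kbar k K) v ^ j -
          algebraMap k (kbar k K) (uf O)) =
          (ι (g * u ^ δ) - algebraMap (kbar k K) (UU k K) (algebraMap k (kbar k K) (uf O))) -
          (ι (g * u ^ δ) - algebraMap (kbar k K) (UU k K)
            (algebraMap k (kbar k K) v ^ j * ρ ^ δ)) := by
        rw [map_sub, mul_comm (ρ ^ δ)]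
        ring
      rw [h2, ValuationSubring.mem_nonunits_iff]
      exact P.valuation.map_sub_lt ((ValuationSubring.mem_nonunits_iff _).1 hu)
        ((ValuationSubring.mem_nonunits_iff _).1 h1)
    obtain ⟨τ, hτ, hτρ⟩ := kummer_move (k₁ := F) hfin hWtop (fun c => hFW c) hδ hvW hv0 hdisc hδj
      hW1 hρ3
    exact hτρ (hρ2 τ hτ.1)
  · obtain ⟨z, hz, hzc, hzq⟩ := hqf' O hr
    obtain ⟨c, hc1, hc2⟩ := hres (algebraMap K₀ K z) hz
    have hroot : aeval c (qf O) = 0 := by
      apply hconst
      change _ ∈ (P.comap ι).nonunits at hzq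
      rw [hnon, hιa] at hzq
      have h1 := aeval_sub_mem P hP hc1 ((qf O).map (algebraMap k (kbar k K)))
      have h2 : algebraMap (kbar k K) (UU k K) (aeval c (qf O)) =
          aeval (ι z) ((qf O).map (algebraMap k (kbar k K))) -
          (aeval (ι z) ((qf O).map (algebraMap k (kbar k K))) -
          algebraMap (kbar k K) (UU k K) (((qf O).map (algebraMap k (kbar k K))).eval c)) := by
        rw [sub_sub_cancel, eval_map, aeval_def]
      rw [h2, ValuationSubring.mem_nonunits_iff]
      exact P.valuation.map_sub_lt ((ValuationSubring.mem_nonunits_iff _).1 hzq)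
        ((ValuationSubring.mem_nonunits_iff _).1 h1)
    have hnk : ∀ a : k, algebraMap k (kbar k K) a ≠ c := by
      rintro a rfl
      apply hzc a
      change _ ∈ (P.comap ι).nonunits
      rw [hnon, map_sub, hιk]
      exact hc1
    obtain ⟨γ, hγ, hγc⟩ := hmove _ (Finset.mem_image_of_mem _ hO) c hroot hnk
    exact hγc (hc2 γ hγ)

end Pool.Agent.TW
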