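import Pool.Agent.Helper13.TW.Fin
import Pool.Agent.Helper10.RR.TrW
import Pool.Agent.Helper10.UL.Restrict

/-!
# Almost all twists of a cyclic cover have no sections: arbitrary finitely generated fields
-/

universe u

namespace Pool.Agent.TW

open VC UL IntermediateField

/-- **Almost all twists have no sections**, over all finitely generated fields. -/
theorem twists_thin_gen {F k K₀ : Type u} [Field F] [CharZero F] [Field k] [Algebra F k]
    [Field K₀] [Algebra k K₀]
    (hF : ∃ S : Finset F, Subfield.closure (S : Set F) = ⊤)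
    (hk : ∃ S : Finset k, Subfield.closure (S : Set k) = ⊤) {T : k} (hT : Transcendental F T)
    (hK₀ : IsFunctionField k K₀) {g : K₀} (hg : g ≠ 0) {m : ℕ} (hm : 1 ≤ m) :
    IsThin {a : Fin (m + 1) → F |
      ¬ NoSecTwist g (∑ i, algebraMap F k (a i) * T ^ (i : ℕ))} := by
  obtain ⟨n, s, hs, hT', hfin⟩ := RR.exists_tower hk hT
  have hF1 := RR.fg_adjoin (k := k) hF s
  have h0 : CharZero (adjoin F (Set.range s)) :=
    charZero_of_injective_algebraMap (algebraMap F (adjoin F (Set.range s))).injective
  have h1 := twists_thin (F := adjoin F (Set.range s)) (k := k) (K₀ := K₀) hF1 hT' hK₀ hg hm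
  let s₁ : Fin n → adjoin F (Set.range s) := fun i => ⟨s i, subset_adjoin F _ ⟨i, rfl⟩⟩
  have hs₁ : AlgebraicIndependent F s₁ := by
    have h2 : (fun i => algebraMap (adjoin F (Set.range s)) k (s₁ i)) = s := rfl
    rw [← h2] at hs
    exact hs.of_comp (IsScalarTower.toAlgHom F (adjoin F (Set.range s)) k)
  have htop : adjoin F (Set.range s₁) = ⊤ := by
    apply IntermediateField.lift_injective (adjoin F (Set.range s))
    rw [IntermediateField.lift_adjoin, IntermediateField.lift_top]
    congr 1
    rw [← Set.range_comp]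
    rfl
  refine (h1.restrict hs₁ htop).mono ?_
  intro a ha hgood
  apply ha
  have h2 : (fun i : Fin (m + 1) => algebraMap F k (a i) * T ^ (i : ℕ)) = fun i : Fin (m + 1) =>
      algebraMap (adjoin F (Set.range s)) k (algebraMap F (adjoin F (Set.range s)) (a i)) *
        T ^ (i : ℕ) := by
    funext i
    rw [← IsScalarTower.algebraMap_apply]
  rw [h2]
  exact hgood

end Pool.Agent.TW
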