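import Pool.Agent.Helper13.TW.Fin
import Pool.Agent.Helper37.TW.W6

/-!
# Almost all twists of a cyclic cover by the members of a linear system have no sections
-/

universe u

set_option linter.unusedSectionVars false

namespace Pool.Agent.TW

open VC Polynomial Pool.Agent.LT Pool.Agent.SC Pool.Agent.Helper91.Sect Pool.Agent Pool.Agent.GC
  Pool.Agent.Helper37.UL UL

/-- **Almost all twists have no sections.** -/
theorem twists_thin_W {F k K₀ : Type u} [Field F] [CharZero F] [Field k] [Algebra F k]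
    [Field K₀] [Algebra k K₀]
    (hF : ∃ S : Finset F, Subfield.closure (S : Set F) = ⊤) {T : k} (hT : Transcendental F T)
    [hfin : FiniteDimensional (IntermediateField.adjoin F {T}) k]
    (hK₀ : IsFunctionField k K₀) {g : K₀} (hg : g ≠ 0) {m : ℕ} (hm : 1 ≤ m)
    {w : Fin (m + 1) → k} (hw0 : w 0 ≠ 0)
    (hw1 : ∀ e : Fin (m + 1), (e : ℕ) = 1 → w e = T * w 0) :
    IsThin {a : Fin (m + 1) → F |
      ¬ NoSecTwist g (∑ i, algebraMap F k (a i) * w i)} := by
  classical
  have hk0 : CharZero k := charZero_of_injective_algebraMap (algebraMap F k).injective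
  obtain ⟨x, z₀, f, S₀, hx, hgen, hdeg, hsep, hgood⟩ := exists_goodPoly hK₀ hg
  have hc : Coord g x z₀ f S₀ := ⟨hg, hK₀, hx, hgen, hdeg, hsep, hgood⟩
  obtain ⟨M, U₀, hM, hU₀, hcore⟩ := no_section_core hF (fg_of_finite hF (T := T)) hfin hc
  let C : Type u := AlgebraicClosure k
  let B : Finset C := (M.biUnion fun q => (q.map (algebraMap k C)).roots.toFinset).filter
    (fun b => b ∉ Set.range (algebraMap k C))
  have hB : ∀ b ∈ B, b ∉ Set.range (algebraMap k C) := fun b hb => (Finset.mem_filter.1 hb).2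
  have h0 : (0 : C) ∉ U₀.image (algebraMap k C) := by
    intro h
    obtain ⟨u, hu, hu0⟩ := Finset.mem_image.1 h
    rw [map_eq_zero] at hu0
    exact hU₀ (hu0 ▸ hu)
  refine (thin_places_W hT hm hw0 hw1 B hB (U₀.image (algebraMap k C)) h0).mono ?_
  intro a ha hW
  apply ha
  set v : k := ∑ i, algebraMap F k (a i) * w i with hv
  obtain ⟨W, hWt, hWF, hWU, hWv, hWd, hWB⟩ := hW
  have hv0 : v ≠ 0 := by
    intro h0
    apply hWt
    have h1 : ∀ z : k, algebraMap k C z ∈ W := by
      intro z
      by_cases hz : z = 0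
      · rw [hz, map_zero]; exact W.zero_mem
      · obtain ⟨i, hi⟩ := hWd z hz
        rw [h0, map_zero, map_zero] at hi
        rw [← W.valuation_le_one_iff, hi]
        by_cases hi0 : i = 0
        · rw [hi0, zpow_zero]
        · rw [zero_zpow i hi0]
          exact zero_le
    rw [eq_top_iff]
    intro z _
    have h2 : IsIntegral k z := Algebra.IsIntegral.isIntegral z
    let ψ : k →+* W := (algebraMap k C).codRestrict W.toSubring h1
    obtain ⟨p, hp, hp'⟩ := h2
    have h3 : IsIntegral W z := by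
      refine ⟨p.map ψ, hp.map ψ, ?_⟩
      rw [Polynomial.eval₂_map]
      exact hp'
    obtain ⟨y, hy⟩ := IsIntegrallyClosed.isIntegral_iff.mp h3
    rw [← hy]
    exact y.2
  intro n j hn hj hbr K _ _ _ _ y hgen heq hrat
  let e : C ≃ₐ[k] kbar k K := IsAlgClosure.equiv k C (kbar k K)
  let W' : ValuationSubring (kbar k K) := W.comap (e.symm : kbar k K →+* C)
  have hek : ∀ z : k, (e.symm : kbar k K →+* C) (algebraMap k (kbar k K) z) = algebraMap k C z :=
    fun z => e.symm.commutes z
  have hmem : ∀ z, z ∈ W' ↔ e.symm z ∈ W := fun _ => Iff.rfl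
  refine hcore v n j hn hj hbr K y hgen heq hrat W' ?_ ?_ ?_ ?_ hv0 ?_ ?_
  · intro h
    apply hWt
    rw [eq_top_iff]
    intro z _
    have h1 : e z ∈ W' := by rw [h]; trivial
    rwa [hmem, AlgEquiv.symm_apply_apply] at h1
  · intro c
    rw [ValuationSubring.mem_comap, hek]
    exact hWF c
  · intro u hu
    rw [comap_eq_one, hek]
    exact hWU _ (Finset.mem_image_of_mem _ hu)
  · rw [ValuationSubring.mem_nonunits_iff, comap_lt_one, hek]
    exact (ValuationSubring.mem_nonunits_iff _).1 hWv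
  · intro z hz
    obtain ⟨i, hi⟩ := hWd z hz
    refine ⟨i, ?_⟩
    have hv' : algebraMap k (kbar k K) v ≠ 0 := (_root_.map_ne_zero _).2 hv0
    rw [← map_zpow₀, comap_eq _ _ (zpow_ne_zero i hv'), map_zpow₀, map_zpow₀, hek, hek]
    exact hi
  · intro q hq ρ hρ hρk
    have hb : e.symm ρ ∈ B := by
      refine Finset.mem_filter.2 ⟨Finset.mem_biUnion.2 ⟨q, hq, ?_⟩, ?_⟩
      · rw [Multiset.mem_toFinset, mem_roots', IsRoot.def, eval_map, ← aeval_def]
        refine ⟨(Polynomial.map_ne_zero_iff (algebraMap k C).injective).2 (hM q hq), ?_⟩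
        have h2 := congrArg e.symm hρ
        rw [map_zero] at h2
        exact (aeval_algHom_apply (e.symm : kbar k K →ₐ[k] C) ρ q).trans h2
      · rintro ⟨c, hc⟩
        apply hρk c
        rw [← e.apply_symm_apply ρ, ← hc, e.commutes]
    obtain ⟨γ, hγ, hγb⟩ := hWB _ hb
    refine ⟨(e.symm.trans γ).trans e, ?_, ?_⟩
    · intro z
      rw [hmem, hmem]
      change e.symm (e (γ (e.symm z))) ∈ W ↔ _
      rw [AlgEquiv.symm_apply_apply]
      exact hγ _
    · change e (γ (e.symm ρ)) ≠ ρ
      intro h1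
      apply hγb
      apply e.injective
      rw [h1, AlgEquiv.apply_symm_apply]

end Pool.Agent.TW
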